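import Pool.Agent.R129.CG

/-!
# Isomorphism classes of convex geometries (helper file for MP_0c861e, Q2)
-/

namespace Pool.Agent.V8H67.CGU

open Pool.Agent.R129.CG

/-- Isomorphism of the families of subsets of `Fin n` with the property `P`. -/
def isoSetoid (n : ℕ) (P : Set (Set (Fin n)) → Prop) : Setoid {G : Set (Set (Fin n)) // P G} where
  r G H := Iso G.1 H.1
  iseqv :=
    { refl := fun G => ⟨Equiv.refl _, fun D => by simp⟩
      symm := by
        rintro G H ⟨e, he⟩
        refine ⟨e.symm, fun D => ?_⟩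
        rw [he, ← Set.image_comp]
        simp
      trans := by
        rintro G H K ⟨e, he⟩ ⟨f, hf⟩
        refine ⟨e.trans f, fun D => ?_⟩
        rw [he, hf, ← Set.image_comp]
        rfl }

/-- The number of isomorphism classes of the families of subsets of an `n`-element set with the
property `P`. -/
noncomputable def classes (n : ℕ) (P : Set (Set (Fin n)) → Prop) : ℕ :=
  Nat.card (Quotient (isoSetoid n P))

/-- The isomorphism classes of convex geometries on `n` elements. -/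
abbrev Cl (n : ℕ) : Type := Quotient (isoSetoid n IsCG)

/-- A representative. -/
noncomputable def rep {n : ℕ} (c : Cl n) : {G : Set (Set (Fin n)) // IsCG G} :=
  Quotient.out c

lemma eq_of_iso {n : ℕ} {c d : Cl n} (h : Iso (rep c).1 (rep d).1) : c = d := by
  have h1 : (isoSetoid n IsCG).r (rep c) (rep d) := h
  have h2 := Quotient.sound (s := isoSetoid n IsCG) h1
  unfold rep at h2
  rwa [Quotient.out_eq, Quotient.out_eq] at h2

/-- Every geometry on a set with `n` elements is isomorphic to a representative. -/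
lemma classify {n : ℕ} {A : Type} (e0 : A ≃ Fin n) {G : Set (Set A)} (hG : IsCG G) :
    ∃ (c : Cl n) (e : A ≃ Fin n), ∀ D : Set A, D ∈ G ↔ e '' D ∈ (rep c).1 := by
  set a : {G : Set (Set (Fin n)) // IsCG G} := ⟨{D | e0 ⁻¹' D ∈ G}, isCG_image e0 hG⟩ with ha
  set c : Cl n := Quotient.mk (isoSetoid n IsCG) a with hc
  have h1 : (isoSetoid n IsCG).r (rep c) a := Quotient.mk_out (s := isoSetoid n IsCG) a
  obtain ⟨e1, he1⟩ := h1
  refine ⟨c, e0.trans e1.symm, fun D => ?_⟩
  rw [he1, ← Set.image_comp]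
  have e : (e1 ∘ (e0.trans e1.symm)) '' D = e0 '' D := by
    congr 1
    ext x
    simp
  rw [e]
  change _ ↔ e0 ⁻¹' (e0 '' D) ∈ G
  rw [e0.preimage_image]

section basic

variable {n : ℕ}

instance (P : Set (Set (Fin n)) → Prop) : Finite (Quotient (isoSetoid n P)) :=
  Quotient.finite _

lemma cl_le (n : ℕ) : classes n IsCG ≤ 2 ^ 2 ^ n := by
  have h1 : classes n IsCG ≤ num (Fin n) := by
    unfold classes num
    exact Nat.card_le_card_of_surjective (Quotient.mk (isoSetoid n IsCG)) Quotient.mk_surjective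
  have h2 := num_le (Fin n)
  rw [Nat.card_eq_fintype_card, Fintype.card_fin] at h2
  exact h1.trans h2

lemma num_le_factorial (n : ℕ) : num (Fin n) ≤ n.factorial * classes n IsCG := by
  have h : ∀ G : {G : Set (Set (Fin n)) // IsCG G}, ∃ p : (Fin n ≃ Fin n) × Cl n,
      ∀ D : Set (Fin n), D ∈ G.1 ↔ p.1 '' D ∈ (rep p.2).1 := by
    intro G
    obtain ⟨c, e, h⟩ := classify (Equiv.refl (Fin n)) G.2
    exact ⟨(e, c), h⟩
  choose p hp using h
  have hc : Nat.card ((Fin n ≃ Fin n) × Cl n) = n.factorial * classes n IsCG := by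
    rw [Nat.card_prod]
    congr 1
    rw [Nat.card_eq_fintype_card, show Fintype.card (Fin n ≃ Fin n) =
      Fintype.card (Equiv.Perm (Fin n)) from rfl, Fintype.card_perm, Fintype.card_fin]
  rw [← hc]
  unfold num
  refine Nat.card_le_card_of_injective p ?_
  intro G H h
  apply Subtype.ext
  ext D
  rw [hp G D, h]
  exact (hp H D).symm

/-- A class is primitive or not. -/
lemma classes_split (n : ℕ) : classes n IsCG ≤
    classes n (fun G => IsCG G ∧ Primitive G) + classes n (fun G => IsCG G ∧ ¬ Primitive G) := by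
  classical
  unfold classes
  rw [← Nat.card_sum]
  let f : Cl n → Quotient (isoSetoid n (fun G => IsCG G ∧ Primitive G)) ⊕
      Quotient (isoSetoid n (fun G => IsCG G ∧ ¬ Primitive G)) := fun c =>
    if h : Primitive (rep c).1 then Sum.inl (Quotient.mk _ ⟨(rep c).1, (rep c).2, h⟩)
    else Sum.inr (Quotient.mk _ ⟨(rep c).1, (rep c).2, h⟩)
  refine Nat.card_le_card_of_injective f ?_
  intro c d h
  simp only [f] at h
  apply eq_of_iso
  by_cases h1 : Primitive (rep c).1
  · by_cases h2 : Primitive (rep d).1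
    · rw [dif_pos h1, dif_pos h2] at h
      exact Quotient.exact (Sum.inl_injective h)
    · rw [dif_pos h1, dif_neg h2] at h
      exact absurd h Sum.inl_ne_inr
  · by_cases h2 : Primitive (rep d).1
    · rw [dif_neg h1, dif_pos h2] at h
      exact absurd h Sum.inr_ne_inl
    · rw [dif_neg h1, dif_neg h2] at h
      exact Quotient.exact (Sum.inr_injective h)

lemma classes_mono (n : ℕ) : classes n (fun G => IsCG G ∧ Primitive G) ≤ classes n IsCG := by
  unfold classes
  refine Nat.card_le_card_of_injective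
    (fun c : Quotient (isoSetoid n (fun G => IsCG G ∧ Primitive G)) =>
      (Quotient.mk (isoSetoid n IsCG) ⟨c.out.1, c.out.2.1⟩)) ?_
  intro c d h
  have h1 := Quotient.exact h
  have h2 : (isoSetoid n (fun G => IsCG G ∧ Primitive G)).r c.out d.out := h1
  have h3 := Quotient.sound (s := isoSetoid n (fun G => IsCG G ∧ Primitive G)) h2
  rwa [Quotient.out_eq, Quotient.out_eq] at h3

/-- Adding a point multiplies the number of classes by at least `2 ^ n / (n + 1)`. -/
lemma classes_succ (n : ℕ) : 2 ^ n * classes n IsCG ≤ (n + 1) * classes (n + 1) IsCG := by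
  classical
  have hch : ∀ (c : Cl n) (i : Fin (2 ^ n)),
      ∃ H0, Good (rep c).1 H0 ∧ H0.ncard = i.val + 1 := fun c i =>
    exists_good (rep c).2 (i.val + 1) (by omega) (by
      rw [Nat.card_eq_fintype_card, Fintype.card_fin]; exact i.2)
  choose H0 h1 h2 using hch
  have hcl : ∀ x : Fin (2 ^ n) × Cl n, ∃ p : Fin (n + 1) × Cl (n + 1),
      ∃ e : Option (Fin n) ≃ Fin (n + 1), e none = p.1 ∧
        ∀ D, D ∈ extFam (rep x.2).1 (H0 x.2 x.1) ↔ e '' D ∈ (rep p.2).1 := by
    intro x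
    obtain ⟨c, e, he⟩ := classify (finSuccEquiv n).symm
      (extFam_cg (rep x.2).2 (h1 x.2 x.1))
    exact ⟨(e none, c), e, rfl, he⟩
  choose p e hp1 hp2 using hcl
  have hc1 : Nat.card (Fin (2 ^ n) × Cl n) = 2 ^ n * classes n IsCG := by
    rw [Nat.card_prod, Nat.card_eq_fintype_card, Fintype.card_fin]; rfl
  have hc2 : Nat.card (Fin (n + 1) × Cl (n + 1)) = (n + 1) * classes (n + 1) IsCG := by
    rw [Nat.card_prod, Nat.card_eq_fintype_card, Fintype.card_fin]; rfl
  rw [← hc1, ← hc2]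
  refine Nat.card_le_card_of_injective p ?_
  intro x y hxy
  -- the isomorphism of the pointed geometries
  set σ : Option (Fin n) ≃ Option (Fin n) := (e x).trans (e y).symm with hσ
  have hσ0 : σ none = none := by
    rw [hσ, Equiv.trans_apply, Equiv.symm_apply_eq, hp1, hp1, hxy]
  have hσD : ∀ D, D ∈ extFam (rep x.2).1 (H0 x.2 x.1) ↔
      σ '' D ∈ extFam (rep y.2).1 (H0 y.2 y.1) := by
    intro D
    rw [hp2, hp2, hxy, ← Set.image_comp]
    have : ((e y) ∘ σ) '' D = (e x) '' D := by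
      congr 1
      ext z
      simp [hσ]
    rw [this]
  set τ : Fin n ≃ Fin n := Equiv.removeNone σ with hτ
  have hτσ : ∀ z : Fin n, σ (some z) = some (τ z) := by
    intro z
    have h3 : ∃ z', σ (some z) = some z' := by
      rcases h4 : σ (some z) with _ | z'
      · exfalso
        have := σ.injective (h4.trans hσ0.symm)
        simp at this
      · exact ⟨z', rfl⟩
    rw [hτ, Equiv.removeNone_some _ h3]
  have himg : ∀ F : Set (Fin n), σ '' (some '' F) = some '' (τ '' F) := by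
    intro F
    rw [← Set.image_comp, ← Set.image_comp]
    congr 1
    ext z
    simp [hτσ]
  have hpre : ∀ F : Set (Fin n), (some ⁻¹' (some '' F) : Set (Fin n)) = F := by
    intro F; exact Set.preimage_image_eq F (Option.some_injective _)
  have hnone : ∀ F : Set (Fin n), (none : Option (Fin n)) ∉ some '' F := by
    intro F; simp
  have mem1 : ∀ (K K0 : Set (Set (Fin n))) (F : Set (Fin n)),
      insert none (some '' F) ∈ extFam K K0 ↔ F ∈ K := by
    intro K K0 F
    have h2 : some ⁻¹' (insert none (some '' F)) = F := by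
      ext z
      simp
    unfold extFam
    simp only [Set.mem_ofPred_eq, h2, Set.mem_insert_iff, true_or, true_and, not_true_eq_false,
      false_and, or_false]
  have mem0 : ∀ (K K0 : Set (Set (Fin n))) (F : Set (Fin n)),
      some '' F ∈ extFam K K0 ↔ F ∈ K0 := by
    intro K K0 F
    unfold extFam
    simp only [Set.mem_ofPred_eq, hpre, hnone, false_and, false_or, not_false_eq_true, true_and]
  have hG : ∀ F, F ∈ (rep x.2).1 ↔ τ '' F ∈ (rep y.2).1 := by
    intro F
    rw [← mem1 _ (H0 x.2 x.1) F, hσD, Set.image_insert_eq, hσ0, himg, mem1]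
  have hH : ∀ F, F ∈ H0 x.2 x.1 ↔ τ '' F ∈ H0 y.2 y.1 := by
    intro F
    rw [← mem0 (rep x.2).1 _ F, hσD, himg, mem0]
  have e2 : x.2 = y.2 := eq_of_iso ⟨τ, hG⟩
  have e1 : (H0 x.2 x.1).ncard = (H0 y.2 y.1).ncard := by
    have h3 : H0 y.2 y.1 = (fun F => τ '' F) '' (H0 x.2 x.1) := by
      ext F
      constructor
      · intro hF
        refine ⟨τ ⁻¹' F, ?_, τ.image_preimage F⟩
        rw [hH, τ.image_preimage]
        exact hF
      · rintro ⟨F', hF', rfl⟩
        exact (hH F').1 hF'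
    rw [h3, Set.ncard_image_of_injective _ τ.injective.image_injective]
  rw [h2, h2] at e1
  exact Prod.ext (Fin.ext (by omega)) e2

end basic

section modules

variable {Z W : Type}

lemma trace_pull (e : Z ≃ W) (H : Set (Set W)) {A : Set Z} {B : Set W} (σ : A ≃ B)
    (hσ : ∀ a : A, e a = σ a) (E : Set A) :
    E ∈ trace {D | e '' D ∈ H} A ↔ σ '' E ∈ trace H B := by
  constructor
  · rintro ⟨D, hD, rfl⟩
    refine ⟨e '' D, hD, ?_⟩
    ext b
    obtain ⟨a, rfl⟩ := σ.surjective b
    simp only [Set.mem_image, Set.mem_preimage, EmbeddingLike.apply_eq_iff_eq,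
      exists_eq_right]
    constructor
    · intro h
      exact ⟨a, h, hσ a⟩
    · rintro ⟨z, hz, h⟩
      rw [← hσ a] at h
      rw [← e.injective h]
      exact hz
  · rintro ⟨D, hD, h⟩
    refine ⟨e ⁻¹' D, ?_, ?_⟩
    · change e '' (e ⁻¹' D) ∈ H
      rw [e.image_preimage]
      exact hD
    · ext a
      have h1 : a ∈ E ↔ σ a ∈ σ '' E := by simp
      rw [h1, h]
      simp only [Set.mem_preimage]
      rw [← hσ a]

/-- Two geometries with modules and isomorphic pointed traces are isomorphic. -/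
lemma glue {G : Set (Set Z)} {H : Set (Set W)} {S : Set Z} {T : Set W}
    (hG : IsModule G S) (hH : IsModule H T) {y0 : Z} {z0 : W} (hy : y0 ∈ S) (hz : z0 ∈ T)
    (σ1 : S ≃ T) (h1 : σ1 ⟨y0, hy⟩ = ⟨z0, hz⟩)
    (σ2 : (insert y0 Sᶜ : Set Z) ≃ (insert z0 Tᶜ : Set W))
    (h2 : σ2 ⟨y0, Set.mem_insert _ _⟩ = ⟨z0, Set.mem_insert _ _⟩)
    (t1 : ∀ E, E ∈ trace G S ↔ σ1 '' E ∈ trace H T)
    (t2 : ∀ E, E ∈ trace G (insert y0 Sᶜ) ↔ σ2 '' E ∈ trace H (insert z0 Tᶜ)) : Iso G H := by
  classical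
  -- the part outside the modules
  have hto : ∀ x : (Sᶜ : Set Z), (σ2 ⟨x.1, Set.mem_insert_of_mem _ x.2⟩ : W) ∈ (Tᶜ : Set W) := by
    intro x
    rcases (σ2 ⟨x.1, Set.mem_insert_of_mem _ x.2⟩).2 with h | h
    · exfalso
      have h3 : σ2 ⟨x.1, Set.mem_insert_of_mem _ x.2⟩ = σ2 ⟨y0, Set.mem_insert _ _⟩ := by
        rw [h2]
        exact Subtype.ext h
      have h4 := congrArg Subtype.val (σ2.injective h3)
      exact x.2 (h4 ▸ hy)
    · exact h
  have h2' : σ2.symm ⟨z0, Set.mem_insert _ _⟩ = ⟨y0, Set.mem_insert _ _⟩ := by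
    rw [Equiv.symm_apply_eq, h2]
  have hfrom : ∀ x : (Tᶜ : Set W),
      (σ2.symm ⟨x.1, Set.mem_insert_of_mem _ x.2⟩ : Z) ∈ (Sᶜ : Set Z) := by
    intro x
    rcases (σ2.symm ⟨x.1, Set.mem_insert_of_mem _ x.2⟩).2 with h | h
    · exfalso
      have h3 : σ2.symm ⟨x.1, Set.mem_insert_of_mem _ x.2⟩ =
          σ2.symm ⟨z0, Set.mem_insert _ _⟩ := by
        rw [h2']
        exact Subtype.ext h
      have h4 := congrArg Subtype.val (σ2.symm.injective h3)
      exact x.2 (h4 ▸ hz)
    · exact h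
  let σ3 : (Sᶜ : Set Z) ≃ (Tᶜ : Set W) :=
    { toFun := fun x => ⟨_, hto x⟩
      invFun := fun x => ⟨_, hfrom x⟩
      left_inv := fun x => by
        apply Subtype.ext
        simp
      right_inv := fun x => by
        apply Subtype.ext
        simp }
  let e : Z ≃ W := (Equiv.Set.sumCompl S).symm.trans
    ((Equiv.sumCongr σ1 σ3).trans (Equiv.Set.sumCompl T))
  have eS : ∀ x : S, e x = σ1 x := by
    intro x
    simp [e, Equiv.Set.sumCompl_symm_apply]
  have eC : ∀ x : (Sᶜ : Set Z), e x = σ3 x := by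
    intro x
    simp [e, Equiv.Set.sumCompl_symm_apply_compl]
  have eI : ∀ x : (insert y0 Sᶜ : Set Z), e x = σ2 x := by
    rintro ⟨x, hx⟩
    rcases hx with rfl | hx
    · have := eS ⟨x, hy⟩
      simp only at this
      rw [this, h1, h2]
    · exact eC ⟨x, hx⟩
  have eT : e ⁻¹' T = S := by
    ext x
    constructor
    · intro h
      by_contra hx
      have h3 := eC ⟨x, hx⟩
      have h4 : e x ∈ (Tᶜ : Set W) := by
        rw [show e x = _ from h3]
        exact (σ3 ⟨x, hx⟩).2
      exact h4 h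
    · intro h
      have h3 := eS ⟨x, h⟩
      change e x ∈ T
      rw [show e x = _ from h3]
      exact (σ1 ⟨x, h⟩).2
  refine ⟨e, ?_⟩
  have key : G = {D | e '' D ∈ H} := by
    have hM : IsModule {D | e '' D ∈ H} S := by
      rw [← eT]
      exact module_iso e (fun D => Iff.rfl) hH
    refine determined hG hM hy ?_ ?_
    · ext E
      rw [t1, trace_pull e H σ1 eS]
    · ext E
      rw [t2, trace_pull e H σ2 eI]
  intro D
  rw [key]
  rfl

end modules

/-- The codes of the classes of geometries which are not primitive. -/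
abbrev Code (n : ℕ) : Type :=
  Σ j : {j : Fin (n + 1) // 2 ≤ j.1 ∧ j.1 < n},
    (Fin j.1.1 × Cl j.1.1) × (Fin (n + 1 - j.1.1) × Cl (n + 1 - j.1.1))

/-- The relation of a geometry and a code. -/
def Coded {n : ℕ} (G : Set (Set (Fin n))) (x : Code n) : Prop :=
  ∃ (S : Set (Fin n)) (y0 : Fin n) (hy : y0 ∈ S) (e1 : S ≃ Fin x.1.1.1)
    (e2 : (insert y0 Sᶜ : Set (Fin n)) ≃ Fin (n + 1 - x.1.1.1)), IsModule G S ∧
    e1 ⟨y0, hy⟩ = x.2.1.1 ∧ (∀ D, D ∈ trace G S ↔ e1 '' D ∈ (rep x.2.1.2).1) ∧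
    e2 ⟨y0, Set.mem_insert _ _⟩ = x.2.2.1 ∧
    (∀ D, D ∈ trace G (insert y0 Sᶜ) ↔ e2 '' D ∈ (rep x.2.2.2).1)

lemma exists_coded {n : ℕ} {G : Set (Set (Fin n))} (hG : IsCG G) (hP : ¬ Primitive G) :
    ∃ x : Code n, Coded G x := by
  obtain ⟨S, hS1, hS2, hS3⟩ := exists_module hP
  have hlt : S.ncard < n := by
    have := Set.ncard_lt_card hS2
    rwa [Nat.card_eq_fintype_card, Fintype.card_fin] at this
  obtain ⟨y0, hy⟩ : S.Nonempty := by
    rw [← Set.ncard_pos]; omega
  obtain ⟨c1, e1, h1⟩ := classify (n := S.ncard)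
    (Finite.equivFinOfCardEq (Nat.card_coe_set_eq S)) (trace_cg hG S)
  have hcard : Nat.card (insert y0 Sᶜ : Set (Fin n)) = n + 1 - S.ncard := by
    rw [Nat.card_coe_set_eq, Set.ncard_insert_of_notMem (by simpa using hy),
      Set.ncard_compl, Nat.card_eq_fintype_card, Fintype.card_fin]
    omega
  obtain ⟨c2, e2, h2⟩ := classify (n := n + 1 - S.ncard)
    (Finite.equivFinOfCardEq hcard) (trace_cg hG (insert y0 Sᶜ))
  exact ⟨⟨⟨⟨S.ncard, by omega⟩, hS1, hlt⟩, (e1 ⟨y0, hy⟩, c1),
    (e2 ⟨y0, Set.mem_insert _ _⟩, c2)⟩, S, y0, hy, e1, e2, hS3, rfl, h1, rfl, h2⟩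

lemma coded_iso {n : ℕ} {G H : Set (Set (Fin n))} {x : Code n} (hG : Coded G x)
    (hH : Coded H x) : Iso G H := by
  obtain ⟨S, y0, hy, e1, e2, m, a1, a2, a3, a4⟩ := hG
  obtain ⟨T, z0, hz, f1, f2, m', b1, b2, b3, b4⟩ := hH
  refine glue m m' hy hz (e1.trans f1.symm) ?_ (e2.trans f2.symm) ?_ ?_ ?_
  · rw [Equiv.trans_apply, Equiv.symm_apply_eq, a1, b1]
  · rw [Equiv.trans_apply, Equiv.symm_apply_eq, a3, b3]
  · intro E
    rw [a2, b2, ← Set.image_comp]
    have : (f1 ∘ (e1.trans f1.symm)) '' E = e1 '' E := by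
      congr 1
      ext z
      simp
    rw [this]
  · intro E
    rw [a4, b4, ← Set.image_comp]
    have : (f2 ∘ (e2.trans f2.symm)) '' E = e2 '' E := by
      congr 1
      ext z
      simp
    rw [this]

lemma nonprimitive_le (n : ℕ) : classes n (fun G => IsCG G ∧ ¬ Primitive G) ≤
    ∑ j : {j : Fin (n + 1) // 2 ≤ j.1 ∧ j.1 < n},
      (j.1.1 * classes j.1.1 IsCG) * ((n + 1 - j.1.1) * classes (n + 1 - j.1.1) IsCG) := by
  classical
  have h : ∀ q : Quotient (isoSetoid n (fun G => IsCG G ∧ ¬ Primitive G)),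
      ∃ x : Code n, Coded q.out.1 x := fun q => exists_coded q.out.2.1 q.out.2.2
  choose x hx using h
  have hc : Nat.card (Code n) = ∑ j : {j : Fin (n + 1) // 2 ≤ j.1 ∧ j.1 < n},
      (j.1.1 * classes j.1.1 IsCG) * ((n + 1 - j.1.1) * classes (n + 1 - j.1.1) IsCG) := by
    rw [Nat.card_sigma]
    refine Finset.sum_congr rfl fun j _ => ?_
    have hf : ∀ m, Nat.card (Fin m) = m := fun m => by
      rw [Nat.card_eq_fintype_card, Fintype.card_fin]
    rw [Nat.card_prod, Nat.card_prod, Nat.card_prod, hf, hf]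
    rfl
  rw [← hc]
  unfold classes
  refine Nat.card_le_card_of_injective x ?_
  intro c d h
  have h1 : Iso c.out.1 d.out.1 := coded_iso (hx c) (h ▸ hx d)
  have h2 : (isoSetoid n (fun G => IsCG G ∧ ¬ Primitive G)).r c.out d.out := h1
  have h3 := Quotient.sound (s := isoSetoid n (fun G => IsCG G ∧ ¬ Primitive G)) h2
  rwa [Quotient.out_eq, Quotient.out_eq] at h3

end Pool.Agent.V8H67.CGU
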